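import Mathlib
import Pool.Agent.H28.Commuting

set_option autoImplicit false

namespace Pool.Agent.Results.MP_e9d015_al.CommutingCoeffs

open Monoid

universe u

/-- `1 ∈ ∏ g_i^G`: the identity is a product, in this order, of `G`-conjugates of the `g i`. -/
def OneDependent {G : Type u} [Group G] {r : ℕ} (g : Fin r → G) : Prop :=
  ∃ c : Fin r → G, (List.ofFn fun i => c i * g i * (c i)⁻¹).prod = 1

/-- `G * ⟨t_0, …, t_{n-1}⟩`, the free product of `G` with the free group on `n` unknowns. -/
abbrev FreeExt (G : Type u) [Group G] (n : ℕ) : Type u := Monoid.Coprod G (FreeGroup (Fin n))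

/-- The unknown `t_j`. -/
def unknown (G : Type u) [Group G] {n : ℕ} (j : Fin n) : FreeExt G n :=
  Coprod.inr (FreeGroup.of j)

/-- The exponent sum `η_i : G * ⟨t_0, …, t_{n-1}⟩ → ℤ`: it kills `G` and all `t_k` with `k ≠ i`
and maps `t_i` to `1`. -/
def expSum (G : Type u) [Group G] {n : ℕ} (i : Fin n) : FreeExt G n →* Multiplicative ℤ :=
  Coprod.lift 1 (FreeGroup.lift fun k => if k = i then Multiplicative.ofAdd 1 else 1)

/-- The system `w = (w_0, …, w_{n-1})` defines a Kervaire extension of `G`: the integer matrix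
`(η_i(w_j))` has nonzero determinant. -/
def IsKervaire {G : Type u} [Group G] {n : ℕ} (w : Fin n → FreeExt G n) : Prop :=
  (Matrix.of fun i j => (expSum G i (w j)).toAdd : Matrix (Fin n) (Fin n) ℤ).det ≠ 0

/-- `G * ⟨t_0, …, t_{n-1}⟩ / ⟨⟨w_0, …, w_{n-1}⟩⟩`. -/
abbrev Extension {G : Type u} [Group G] {n : ℕ} (w : Fin n → FreeExt G n) : Type u :=
  FreeExt G n ⧸ Subgroup.normalClosure (Set.range w)

/-- The canonical map `G → G * ⟨t_0, …, t_{n-1}⟩ / ⟨⟨w_0, …, w_{n-1}⟩⟩`. -/
def toExtension {G : Type u} [Group G] {n : ℕ} (w : Fin n → FreeExt G n) : G →* Extension w :=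
  (QuotientGroup.mk' (Subgroup.normalClosure (Set.range w))).comp Coprod.inl

/-- All coefficients of `w` lie in the subgroup `A` of `G`: `w ∈ A * ⟨t_0, …, t_{n-1}⟩`. -/
def CoeffsIn {G : Type u} [Group G] (A : Subgroup G) {n : ℕ} (w : FreeExt G n) : Prop :=
  w ∈ Subgroup.closure ((Coprod.inl : G →* FreeExt G n) '' (A : Set G) ∪ Set.range (unknown G))

/-- **Conjecture G for Kervaire systems with commuting coefficients**, over an arbitrary group. -/
theorem result (G : Type u) [Group G] (A : Subgroup G) (hA : ∀ x ∈ A, ∀ y ∈ A, x * y = y * x)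
    (n : ℕ) (w : Fin n → FreeExt G n) (hw : ∀ j, CoeffsIn A (w j)) (hdet : IsKervaire w)
    (r : ℕ) (g : Fin r → G) (h : OneDependent (fun i => toExtension w (g i))) :
    OneDependent g :=
  Pool.Agent.H28.commuting_reflects G A hA n w hw hdet r g h

end Pool.Agent.Results.MP_e9d015_al.CommutingCoeffs
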