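import Mathlib
import Pool.Agent.H28.Split
import Pool.Agent.H28.HOne
import Pool.Agent.H57.Stall.Conclude

set_option autoImplicit false
open scoped TensorProduct

namespace Pool.Agent.Results.MP_e9d015_al.IndependentElements

open Pool.Agent.H28 (Dependent)

/-- The map `H_1(S; Z_p) → H_1(F; Z_p)` induced by the inclusion of a subgroup `S` of `F`, exactly
as in the posed statement. -/
noncomputable def h1 (p : ℕ) {F : Type} [Group F] (S : Subgroup F) :
    Additive (Abelianization S) ⊗[ℤ] ZMod p →ₗ[ℤ] Additive (Abelianization F) ⊗[ℤ] ZMod p :=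
  LinearMap.rTensor (ZMod p)
    (AddMonoidHom.toIntLinearMap (MonoidHom.toAdditive (Abelianization.map S.subtype)))

/-- The classes of `g 0, ..., g (n - 1)` in `H_1(F; ℤ) = F^ab` are linearly independent. -/
def Independent {F : Type} [Group F] {n : ℕ} (g : Fin n → F) : Prop :=
  LinearIndependent ℤ fun i => Additive.ofMul (Abelianization.of (g i))

/-- Stallings' assertion `B_n(p)`, as posed. -/
def StallingsB (n p : ℕ) : Prop :=
  ∀ (k : ℕ) (S : Subgroup (FreeGroup (Fin k))), Function.Bijective (h1 p S) →
    ∀ (a : S) (g : Fin n → S),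
      Dependent (a : FreeGroup (Fin k)) (fun i => (g i : FreeGroup (Fin k))) → Dependent a g

/-- `B_n(p)` only for free groups `F` of rank `k` with `2 ≤ k < n`, and only for elements
`g 0, ..., g (n - 1)` whose classes generate `H_1(F; Z_p)`: every homomorphism from `F` to the
group of order `p` that kills all of them is trivial. -/
def RestrictedB (n p : ℕ) : Prop :=
  ∀ (k : ℕ), 2 ≤ k → k < n → ∀ (S : Subgroup (FreeGroup (Fin k))), Function.Bijective (h1 p S) →
    ∀ (a : S) (g : Fin n → S),
      (∀ ψ : FreeGroup (Fin k) →* Multiplicative (ZMod p),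
        (∀ i, ψ (g i : FreeGroup (Fin k)) = 1) → ψ = 1) →
      Dependent (a : FreeGroup (Fin k)) (fun i => (g i : FreeGroup (Fin k))) → Dependent a g

/-- `B_n(p)` for all free groups `F`, of any rank, and all subgroups `S` for which
`H_1(S; Z_p) → H_1(F; Z_p)` is injective. -/
def StrongB (n p : ℕ) : Prop :=
  ∀ (F : Type) [Group F] [IsFreeGroup F] (S : Subgroup F), Function.Injective (h1 p S) →
    ∀ (a : S) (g : Fin n → S), Dependent (a : F) (fun i => (g i : F)) → Dependent a g

open Pool.Agent.H28 Pool.Agent.H57.Stall in
/-- **Stallings' Conjecture B for homologically independent elements, and `B_2(p)`.** -/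
theorem result :
    (∀ (n p : ℕ), p.Prime → ∀ (F : Type) [Group F] [IsFreeGroup F] (S : Subgroup F),
      Function.Injective (h1 p S) → ∀ (a : S) (g : Fin n → S),
        Independent (fun i => (g i : F)) →
        Dependent (a : F) (fun i => (g i : F)) → Dependent a g) ∧
    (∀ p : ℕ, p.Prime → StallingsB 2 p ∧ StrongB 2 p) ∧
    ∀ (n p : ℕ), p.Prime → List.TFAE [StallingsB n p, RestrictedB n p, StrongB n p] := by
  have key : ∀ (n p : ℕ), p.Prime →
      List.TFAE [StallingsB n p, RestrictedB n p, StrongB n p] := by
    intro n p hp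
    tfae_have 1 → 2 := by
      intro h k _ _ S hS a g _ hdep
      exact h k S hS a g hdep
    tfae_have 2 → 3 := by
      intro h F _ _ S hS a g hdep
      refine core hp ?_ S (extP_of_injective hp S hS) a g hdep
      intro k hk S' hext huniq a' g' hgen hdep'
      by_cases h2 : 2 ≤ k
      · rcases hk.lt_or_eq with h3 | h3
        · exact h k h2 h3 S'
            ⟨injective_of_extP hp S' hext, surjective_of_uniqP hp S' huniq⟩ a' g' hgen hdep'
        · subst h3
          exact restrInd hp k k S' hext huniq a' g' (indep_of_gen hp _ hgen) hdep'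
      · exact dependent_of_comm (freeGroup_comm (by omega)) S' a' g' hdep'
    tfae_have 3 → 1 := by
      intro h k S hS a g hdep
      exact h (FreeGroup (Fin k)) S hS.1 a g hdep
    tfae_finish
  refine ⟨?_, ?_, key⟩
  · intro n p hp F _ _ S hS a g hind hdep
    exact strong_ind hp S (extP_of_injective hp S hS) a g (indep_of_linearIndependent _ hind) hdep
  · intro p hp
    have h2 : RestrictedB 2 p := by
      intro k h1 h2
      omega
    exact ⟨((key 2 p hp).out 1 0).1 h2, ((key 2 p hp).out 1 2).1 h2⟩

end Pool.Agent.Results.MP_e9d015_al.IndependentElements
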