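import Mathlib
import Pool.Agent.H28.Positive

set_option autoImplicit false

namespace Pool.Agent.Results.MP_e9d015_al.PositiveSystems

open Monoid

universe u

/-- `1 ∈ ∏ g_i^G`: the identity is a product, in this order, of `G`-conjugates of the `g i`. -/
def OneDependent {G : Type u} [Group G] {r : ℕ} (g : Fin r → G) : Prop :=
  ∃ c : Fin r → G, (List.ofFn fun i => c i * g i * (c i)⁻¹).prod = 1

/-- `G * ⟨t_0, …, t_{n-1}⟩`, the free product of `G` with the free group on `n` unknowns. -/
abbrev FreeExt (G : Type u) [Group G] (n : ℕ) : Type u := Monoid.Coprod G (FreeGroup (Fin n))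

/-- The unknown `t_j`. -/
def unknown (G : Type u) [Group G] {n : ℕ} (j : Fin n) : FreeExt G n :=
  Coprod.inr (FreeGroup.of j)

/-- The exponent sum `η_i : G * ⟨t_0, …, t_{n-1}⟩ → ℤ`: it kills `G` and all `t_k` with `k ≠ i`
and maps `t_i` to `1`. -/
def expSum (G : Type u) [Group G] {n : ℕ} (i : Fin n) : FreeExt G n →* Multiplicative ℤ :=
  Coprod.lift 1 (FreeGroup.lift fun k => if k = i then Multiplicative.ofAdd 1 else 1)

/-- The system `w = (w_0, …, w_{n-1})` defines a Kervaire extension of `G`: the integer matrix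
`(η_i(w_j))` has nonzero determinant. -/
def IsKervaire {G : Type u} [Group G] {n : ℕ} (w : Fin n → FreeExt G n) : Prop :=
  (Matrix.of fun i j => (expSum G i (w j)).toAdd : Matrix (Fin n) (Fin n) ℤ).det ≠ 0

/-- `G * ⟨t_0, …, t_{n-1}⟩ / ⟨⟨w_0, …, w_{n-1}⟩⟩`. -/
abbrev Extension {G : Type u} [Group G] {n : ℕ} (w : Fin n → FreeExt G n) : Type u :=
  FreeExt G n ⧸ Subgroup.normalClosure (Set.range w)

/-- The canonical map `G → G * ⟨t_0, …, t_{n-1}⟩ / ⟨⟨w_0, …, w_{n-1}⟩⟩`. -/
def toExtension {G : Type u} [Group G] {n : ℕ} (w : Fin n → FreeExt G n) : G →* Extension w :=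
  (QuotientGroup.mk' (Subgroup.normalClosure (Set.range w))).comp Coprod.inl

/-- The subgroup generated by `G` and the unknowns `t_i` with `i < j`. -/
def coeffs (G : Type u) [Group G] {n : ℕ} (j : Fin n) : Subgroup (FreeExt G n) :=
  Subgroup.closure (Set.range (Coprod.inl : G →* FreeExt G n) ∪ unknown G '' {i | i < j})

/-- `w` is a positive word in `t_j` with coefficients in `⟨G, t_i : i < j⟩`:
`w = a_0 t_j a_1 t_j … a_{m-1} t_j` with `m > 0` and all `a_k` in `⟨G, t_i : i < j⟩`. -/
def PositiveIn {G : Type u} [Group G] {n : ℕ} (j : Fin n) (w : FreeExt G n) : Prop :=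
  ∃ (m : ℕ) (a : Fin m → FreeExt G n), 0 < m ∧ (∀ k, a k ∈ coeffs G j) ∧
    w = (List.ofFn fun k => a k * unknown G j).prod

theorem expSum_coeffs (G : Type u) [Group G] {n : ℕ} {i j : Fin n} (hij : j ≤ i)
    {x : FreeExt G n} (hx : x ∈ coeffs G j) : expSum G i x = 1 := by
  have hle : coeffs G j ≤ (expSum G i).ker := by
    rw [coeffs, Subgroup.closure_le]
    rintro y (⟨g, rfl⟩ | ⟨k, hk, rfl⟩)
    · show expSum G i (Coprod.inl g) = 1
      simp [expSum]
    · have hki : k ≠ i := by
        rintro rfl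
        exact absurd hk (not_lt.mpr hij)
      show expSum G i (unknown G k) = 1
      simp [expSum, unknown, hki]
  exact hle hx

theorem isKervaire_of_positive {G : Type u} [Group G] {n : ℕ} (w : Fin n → FreeExt G n)
    (hw : ∀ j, PositiveIn j (w j)) : IsKervaire w := by
  have key : ∀ i j, j ≤ i → ∃ m : ℕ, 0 < m ∧
      (expSum G i (w j)).toAdd = if j = i then (m : ℤ) else 0 := by
    intro i j hij
    obtain ⟨m, a, hm, ha, hwj⟩ := hw j
    refine ⟨m, hm, ?_⟩
    have h1 : expSum G i (w j) =
        (List.ofFn fun _ : Fin m => expSum G i (unknown G j)).prod := by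
      rw [hwj, map_list_prod, List.map_ofFn]
      congr 2
      funext k
      simp only [Function.comp_apply, map_mul, expSum_coeffs G hij (ha k), one_mul]
    rw [h1, List.ofFn_const, List.prod_replicate]
    by_cases hji : j = i
    · subst hji
      simp [expSum, unknown]
    · simp [expSum, unknown, hji]
  unfold IsKervaire
  rw [Matrix.det_of_isUpperTriangular]
  · refine Finset.prod_ne_zero_iff.mpr fun i _ => ?_
    obtain ⟨m, hm, h⟩ := key i i le_rfl
    simp only [Matrix.of_apply]
    rw [h, if_pos rfl]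
    exact_mod_cast hm.ne'
  · intro i j hji
    have hji' : j < i := hji
    obtain ⟨m, _, h⟩ := key i j hji'.le
    simp only [Matrix.of_apply]
    rw [h, if_neg hji'.ne]

/-- **Conjecture G for triangular positive systems.** -/
theorem result (G : Type u) [Group G] (n : ℕ) (w : Fin n → FreeExt G n)
    (hw : ∀ j, PositiveIn j (w j)) :
    IsKervaire w ∧ ∀ (r : ℕ) (g : Fin r → G),
      OneDependent (fun i => toExtension w (g i)) → OneDependent g :=
  ⟨isKervaire_of_positive w hw, fun r g h => Pool.Agent.H28.positive_reflects G n w hw r g h⟩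

end Pool.Agent.Results.MP_e9d015_al.PositiveSystems
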