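import Mathlib
import Pool.Agent.H28.SmallCanc

set_option autoImplicit false

namespace Pool.Agent.Results.MP_e9d015_al.SmallCancellation

open Monoid

universe u v w

/-- `a` is a product of conjugates of `g 0, ..., g (n - 1)`, in this order. -/
def Dependent {G : Type*} [Group G] {n : ℕ} (a : G) (g : Fin n → G) : Prop :=
  ∃ c : Fin n → G, a = (List.ofFn (fun i => c i * g i * (c i)⁻¹)).prod

/-- `1 ∈ ∏ g_i^G`: the identity is a product, in this order, of `G`-conjugates of the `g i`. -/
def OneDependent {G : Type*} [Group G] {r : ℕ} (g : Fin r → G) : Prop :=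
  ∃ c : Fin r → G, (List.ofFn fun i => c i * g i * (c i)⁻¹).prod = 1

/-- The set of prefixes of the elements of `S`: all `x` such that `s = x · (x⁻¹ s)` without
cancellation for some `s ∈ S`. The cosets `S x`, `x ∈ Pre S`, are the vertices of the Stallings
graph of `S`. -/
def Pre {α : Type u} [DecidableEq α] (S : Subgroup (FreeGroup α)) : Set (FreeGroup α) :=
  {x | ∃ s ∈ S, x.norm + (x⁻¹ * s).norm = s.norm}

/-- `w` labels paths in the Stallings graph of `S` that start at two different vertices
`S x ≠ S y`. -/
def IsPiece {α : Type u} [DecidableEq α] (S : Subgroup (FreeGroup α)) (w : FreeGroup α) : Prop :=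
  ∃ x y : FreeGroup α, x ∈ Pre S ∧ x * w ∈ Pre S ∧ y ∈ Pre S ∧ y * w ∈ Pre S ∧ y * x⁻¹ ∉ S

/-- Metric small cancellation for the Stallings graph of `S`: for some `L ≥ 1` every piece has
length at most `L`, and every conjugate (in the free group) of a nontrivial element of `S` has
length greater than `6 L`. -/
def MetricCond {α : Type u} [DecidableEq α] (S : Subgroup (FreeGroup α)) : Prop :=
  ∃ L : ℕ, 1 ≤ L ∧ (∀ w, IsPiece S w → w.norm ≤ L) ∧
    ∀ s ∈ S, s ≠ 1 → ∀ f : FreeGroup α, 6 * L < (f * s * f⁻¹).norm

/-- `G * ⟨t_a : a ∈ α⟩ / ⟨⟨R⟩⟩`, for a system `R` of equations over `G` in the unknowns `t_a`. -/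
abbrev Extension {α : Type u} {G : Type v} [Group G] (R : Set (Coprod G (FreeGroup α))) :
    Type (max u v) :=
  Coprod G (FreeGroup α) ⧸ Subgroup.normalClosure R

/-- The canonical map from `G`. -/
def toExtension {α : Type u} {G : Type v} [Group G] (R : Set (Coprod G (FreeGroup α))) :
    G →* Extension R :=
  (QuotientGroup.mk' _).comp Coprod.inl

/-- The conclusion of Conjecture G for the system `R`: for all `r`, the canonical map from `G`
reflects dependence of `1` on `r` elements. -/
def GConclusion {α : Type u} {G : Type v} [Group G] (R : Set (Coprod G (FreeGroup α))) : Prop :=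
  ∀ (r : ℕ) (g : Fin r → G), OneDependent (fun i => toExtension R (g i)) → OneDependent g

/-- Substitution of the words `u_j(t)` for the unknowns `x_j`. -/
def subst {α : Type u} {ι : Type w} {G : Type v} [Group G] (u : ι → FreeGroup α) :
    Coprod G (FreeGroup ι) →* Coprod G (FreeGroup α) :=
  Coprod.map (MonoidHom.id G) (FreeGroup.lift u)

theorem substitution {α : Type u} [DecidableEq α] (S : Subgroup (FreeGroup α))
    (hS : MetricCond S) (ι : Type w) (u : ι → FreeGroup α)
    (hu : Function.Injective (FreeGroup.lift u)) (hcl : Subgroup.closure (Set.range u) = S)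
    (G : Type v) [Group G] (R : Set (Coprod G (FreeGroup ι))) (hR : GConclusion R) :
    GConclusion (subst u '' R) := by
  obtain ⟨L, hL, h1, h2⟩ := hS
  -- the homomorphism `S → G₁ = Extension R`
  have hrange : (FreeGroup.lift u).range = S := by
    rw [FreeGroup.range_lift_eq_closure, hcl]
  let e : FreeGroup ι ≃* S :=
    (MonoidHom.ofInjective hu).trans (MulEquiv.subgroupCongr hrange)
  let q : FreeGroup ι →* Extension R := (QuotientGroup.mk' _).comp Coprod.inr
  let θ : S →* Extension R := q.comp e.symm.toMonoidHom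
  have huS : ∀ x : FreeGroup ι, FreeGroup.lift u x ∈ S := fun x => by
    rw [← hrange]; exact ⟨x, rfl⟩
  have hθ : ∀ x : FreeGroup ι, θ ⟨FreeGroup.lift u x, huS x⟩ = q x := by
    intro x
    have h3 : e x = ⟨FreeGroup.lift u x, huS x⟩ := rfl
    show q (e.symm ⟨FreeGroup.lift u x, huS x⟩) = q x
    rw [← h3, MulEquiv.symm_apply_apply]
  let P := Pool.Agent.H28.Pushout S θ
  let A : Coprod G (FreeGroup α) →* P :=
    (QuotientGroup.mk' _).comp (Coprod.map (toExtension R) (MonoidHom.id _))
  have hA : ∀ y : Coprod G (FreeGroup ι), A (subst u y) =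
      Pool.Agent.H28.toPushout S θ (QuotientGroup.mk y) := by
    intro y
    have hcomp : A.comp (subst u) =
        (Pool.Agent.H28.toPushout S θ).comp (QuotientGroup.mk' (Subgroup.normalClosure R)) := by
      apply Coprod.hom_ext
      · ext1 g
        rfl
      · ext x
        show (QuotientGroup.mk (Coprod.inr (FreeGroup.lift u (FreeGroup.of x))) : P) =
          QuotientGroup.mk (Coprod.inl (q (FreeGroup.of x)))
        rw [← hθ, eq_comm, ← mul_inv_eq_one, ← QuotientGroup.mk_inv, ← QuotientGroup.mk_mul,
          QuotientGroup.eq_one_iff]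
        exact Subgroup.subset_normalClosure ⟨_, rfl⟩
    exact DFunLike.congr_fun hcomp y
  let Ψ : Extension (subst u '' R) →* P :=
    QuotientGroup.lift _ A (by
      apply Subgroup.normalClosure_le_normal
      rintro _ ⟨y, hy, rfl⟩
      show A (subst u y) = 1
      rw [hA, (QuotientGroup.eq_one_iff y).mpr (Subgroup.subset_normalClosure hy)]
      exact map_one _)
  have hcomp : Ψ.comp (toExtension (subst u '' R)) =
      (Pool.Agent.H28.toPushout S θ).comp (toExtension R) := rfl
  have h3 : Pool.Agent.H28.Reflects (toExtension (subst u '' R)) := by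
    apply Pool.Agent.H28.Reflects.of_comp (ψ := Ψ)
    rw [hcomp]
    exact (Pool.Agent.H28.small_reflects S L hL h1 h2 θ).comp fun r x h => hR r x h
  exact fun r x h => h3 r x h

/-- **Small cancellation subgroups.** -/
theorem result {α : Type u} [DecidableEq α] (S : Subgroup (FreeGroup α)) (hS : MetricCond S) :
    (∀ (n : ℕ) (a : S) (g : Fin n → S),
      Dependent (a : FreeGroup α) (fun i => (g i : FreeGroup α)) → Dependent a g) ∧
    ∀ (ι : Type w) (u : ι → FreeGroup α), Function.Injective (FreeGroup.lift u) →
      Subgroup.closure (Set.range u) = S → ∀ (G : Type v) [Group G],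
      (∀ c : ι → G, GConclusion (Set.range fun j =>
        (Coprod.inl (c j) : Coprod G (FreeGroup α)) * (Coprod.inr (u j))⁻¹)) ∧
      ∀ R : Set (Coprod G (FreeGroup ι)), GConclusion R → GConclusion (subst u '' R) := by
  refine ⟨?_, ?_⟩
  · obtain ⟨L, hL, h1, h2⟩ := hS
    exact fun n a g h => Pool.Agent.H28.dependent_of_reflects
      (Pool.Agent.H28.small_reflects S L hL h1 h2 (MonoidHom.id S)) a g h
  intro ι u hu hcl G _
  refine ⟨fun c => ?_, fun R hR => substitution S hS ι u hu hcl G R hR⟩
  -- the system `c_j = x_j`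
  have h1 : GConclusion (Set.range fun j : ι =>
      (Coprod.inl (c j) : Coprod G (FreeGroup ι)) * (Coprod.inr (FreeGroup.of j))⁻¹) := by
    let B : Coprod G (FreeGroup ι) →* G := Coprod.lift (MonoidHom.id G) (FreeGroup.lift c)
    let Ψ : Extension (Set.range fun j : ι =>
      (Coprod.inl (c j) : Coprod G (FreeGroup ι)) * (Coprod.inr (FreeGroup.of j))⁻¹) →* G :=
      QuotientGroup.lift _ B (by
        apply Subgroup.normalClosure_le_normal
        rintro _ ⟨j, rfl⟩
        show B _ = 1
        simp [B])
    have h3 : Pool.Agent.H28.Reflects (toExtension (Set.range fun j : ι =>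
        (Coprod.inl (c j) : Coprod G (FreeGroup ι)) * (Coprod.inr (FreeGroup.of j))⁻¹)) := by
      apply Pool.Agent.H28.Reflects.of_comp (ψ := Ψ)
      have : Ψ.comp (toExtension _) = MonoidHom.id G := by
        ext g
        show B (Coprod.inl g) = g
        simp [B]
      rw [this]
      exact Pool.Agent.H28.reflects_id G
    exact fun r x h => h3 r x h
  have h2 := substitution S hS ι u hu hcl G _ h1
  have h3 : (subst u '' Set.range fun j : ι =>
      (Coprod.inl (c j) : Coprod G (FreeGroup ι)) * (Coprod.inr (FreeGroup.of j))⁻¹) =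
      Set.range fun j => (Coprod.inl (c j) : Coprod G (FreeGroup α)) * (Coprod.inr (u j))⁻¹ := by
    rw [← Set.range_comp]
    congr 1
    funext j
    simp [subst]
  rwa [h3] at h2

end Pool.Agent.Results.MP_e9d015_al.SmallCancellation
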